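import Pool.Agent.W2helper81.BY.Stm

/-!
# Project BY, piece CLEAR: Belyi's first step over `M` after inverting one element
-/

set_option autoImplicit false

open Polynomial Pool.Agent.W2helper81.BY

namespace Pool.Agent.W2helper82.BY

/-- finitely many elements of the fraction field and finitely many polynomials lie over `M_g` -/
lemma exists_loc {M : Type} [CommRing M] [IsDomain M] (T : Finset (FractionRing M)) :
    ∃ g : M, g ≠ 0 ∧ ∃ ι : Localization.Away g →+* FractionRing M, Function.Injective ι ∧
      (∀ x : M, ι (algebraMap M (Localization.Away g) x) = algebraMap M (FractionRing M) x) ∧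
      ∀ a ∈ T, ∃ y : Localization.Away g, ι y = a := by
  obtain ⟨b, hb⟩ := IsLocalization.exist_integer_multiples_of_finset (nonZeroDivisors M) T
  have hg0 : (b : M) ≠ 0 := nonZeroDivisors.ne_zero b.2
  have hgu : IsUnit (algebraMap M (FractionRing M) (b : M)) := by
    rw [isUnit_iff_ne_zero]
    intro h
    exact hg0 ((FaithfulSMul.algebraMap_injective M (FractionRing M)) (by rw [h, map_zero]))
  refine ⟨b, hg0, IsLocalization.Away.lift (b : M) hgu, ?_, fun x => IsLocalization.Away.lift_eq _ _ _, ?_⟩
  · rw [injective_iff_map_eq_zero]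
    intro y hy
    obtain ⟨n, x, hx⟩ := IsLocalization.Away.surj (b : M) y
    have h1 := congrArg (IsLocalization.Away.lift (b : M) hgu) hx
    rw [map_mul, hy, zero_mul, IsLocalization.Away.lift_eq] at h1
    have h2 : x = 0 := (FaithfulSMul.algebraMap_injective M (FractionRing M)) (by rw [← h1, map_zero])
    rw [h2, map_zero] at hx
    have h3 : IsUnit (algebraMap M (Localization.Away (b : M)) (b : M) ^ n) :=
      (IsLocalization.Away.algebraMap_isUnit (b : M)).pow n
    exact (h3.mul_left_eq_zero).1 hx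
  · intro a ha
    obtain ⟨x, hx⟩ := hb a ha
    refine ⟨algebraMap M (Localization.Away (b : M)) x * IsLocalization.Away.invSelf (b : M), ?_⟩
    have h4 : (IsLocalization.Away.lift (b : M) hgu)
        (IsLocalization.Away.invSelf (S := Localization.Away (b : M)) (b : M)) *
        algebraMap M (FractionRing M) (b : M) = 1 := by
      rw [← IsLocalization.Away.lift_eq (S := Localization.Away (b : M)) (b : M) hgu (b : M),
        ← map_mul, mul_comm, IsLocalization.Away.mul_invSelf, map_one]
    rw [map_mul, IsLocalization.Away.lift_eq, hx]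
    rw [Algebra.smul_def]
    linear_combination a * h4

theorem CLEAR_ok : P_CLEAR := by
  intro hBEL hROOTS M _ _ _ f hf
  classical
  have hinj : Function.Injective (algebraMap M (FractionRing M)) :=
    FaithfulSMul.algebraMap_injective M (FractionRing M)
  have hch : CharZero (FractionRing M) := charZero_of_injective_algebraMap hinj
  set F : (FractionRing M)[X] := f.map (algebraMap M (FractionRing M)) with hF
  have hF0 : F ≠ 0 := (Polynomial.map_ne_zero_iff hinj).2 hf
  obtain ⟨β₀, hdeg, hr, hcr⟩ := hBEL (FractionRing M) (AlgebraicClosure (FractionRing M)) F hF0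
  have hd0 : derivative β₀ ≠ 0 := by
    intro h
    have := Polynomial.derivative_eq_zero.1 h
    omega
  set S : Finset (FractionRing M) := (((F.aroots (AlgebraicClosure (FractionRing M))).toFinset ∪
    ((derivative β₀).aroots (AlgebraicClosure (FractionRing M))).toFinset).image
      (fun z => aeval z β₀)).preimage (algebraMap (FractionRing M) (AlgebraicClosure (FractionRing M)))
        (FaithfulSMul.algebraMap_injective _ _).injOn with hS
  set s₀ : Fin S.card → FractionRing M := fun i => (S.equivFin.symm i : FractionRing M) with hs₀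
  have hs₀inj : Function.Injective s₀ := Subtype.val_injective.comp S.equivFin.symm.injective
  set P₀ : (FractionRing M)[X] := ∏ i, (X - C (s₀ i)) with hP₀
  have hzero : ∀ z : AlgebraicClosure (FractionRing M), (aeval z F = 0 ∨ aeval z (derivative β₀) = 0) →
      aeval z (P₀.comp β₀) = 0 := by
    intro z hz
    have hex : ∃ c : FractionRing M, aeval z β₀ = algebraMap _ (AlgebraicClosure (FractionRing M)) c := by
      rcases hz with hz | hz
      · exact hr z hz
      · exact hcr z hz
    obtain ⟨c, hc⟩ := hex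
    have hcS : c ∈ S := by
      rw [hS, Finset.mem_preimage, Finset.mem_image]
      refine ⟨z, ?_, hc⟩
      rw [Finset.mem_union, Multiset.mem_toFinset, Multiset.mem_toFinset, mem_aroots, mem_aroots]
      rcases hz with hz | hz
      · exact Or.inl ⟨hF0, hz⟩
      · exact Or.inr ⟨hd0, hz⟩
    rw [aeval_comp, hP₀, map_prod]
    refine Finset.prod_eq_zero (Finset.mem_univ (S.equivFin ⟨c, hcS⟩)) ?_
    rw [map_sub, aeval_X, aeval_C, hc, hs₀]
    simp
  obtain ⟨N₁, U₁, hU₁⟩ := hROOTS (FractionRing M) (AlgebraicClosure (FractionRing M)) F (P₀.comp β₀) hF0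
    (fun z hz => hzero z (Or.inl hz))
  obtain ⟨N₂, V₂, hV₂⟩ := hROOTS (FractionRing M) (AlgebraicClosure (FractionRing M)) (derivative β₀)
    (P₀.comp β₀) hd0 (fun z hz => hzero z (Or.inr hz))
  set U₀ := U₁ * (P₀.comp β₀) ^ N₂ with hU₀
  set V₀ := V₂ * (P₀.comp β₀) ^ N₁ with hV₀
  have eU : F * U₀ = (P₀.comp β₀) ^ (N₁ + N₂) := by
    rw [hU₀, ← mul_assoc, ← hU₁, pow_add]
  have eV : derivative β₀ * V₀ = (P₀.comp β₀) ^ (N₁ + N₂) := by
    rw [hV₀, ← mul_assoc, ← hV₂, ← pow_add, add_comm]
  obtain ⟨g, hg, ι, hι, hιa, hT⟩ := exists_loc (β₀.coeffs ∪ U₀.coeffs ∪ V₀.coeffs ∪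
    Finset.univ.image s₀ ∪ {(β₀.leadingCoeff)⁻¹} ∪
    Finset.univ.image (fun p : Fin S.card × Fin S.card => (s₀ p.1 - s₀ p.2)⁻¹))
  have lft : ∀ p : (FractionRing M)[X], (∀ a ∈ p.coeffs, ∃ y, ι y = a) →
      ∃ q : (Localization.Away g)[X], q.map ι = p := by
    intro p hp
    rw [← Polynomial.mem_lifts, Polynomial.lifts_iff_coeff_lifts]
    intro n
    by_cases h0 : p.coeff n = 0
    · exact ⟨0, by rw [map_zero, h0]⟩
    · exact hp _ (by
        rw [Polynomial.mem_coeffs_iff]
        exact ⟨n, Polynomial.mem_support_iff.2 h0, rfl⟩)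
  obtain ⟨β, hβ⟩ := lft β₀ (fun a ha => hT a (by simp [ha]))
  obtain ⟨U, hU⟩ := lft U₀ (fun a ha => hT a (by simp [ha]))
  obtain ⟨V, hV⟩ := lft V₀ (fun a ha => hT a (by simp [ha]))
  have hs : ∀ i, ∃ y, ι y = s₀ i := fun i => hT _ (by simp)
  choose s hs' using hs
  have hP : (∏ i, (X - C (s i)) : (Localization.Away g)[X]).map ι = P₀ := by
    rw [Polynomial.map_prod, hP₀]
    refine Finset.prod_congr rfl fun i _ => ?_
    rw [Polynomial.map_sub, Polynomial.map_X, Polynomial.map_C, hs']
  have hlc : ι β.leadingCoeff = β₀.leadingCoeff := by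
    rw [← hβ, Polynomial.leadingCoeff_map_of_injective hι]
  refine ⟨g, hg, β, U, V, S.card, s, N₁ + N₂, ?_, ?_, ?_, ?_, ?_⟩
  · obtain ⟨y, hy⟩ := hT (β₀.leadingCoeff)⁻¹ (by simp)
    refine IsUnit.of_mul_eq_one y (hι ?_)
    rw [map_mul, hlc, hy, map_one, mul_inv_cancel₀]
    rw [Ne, leadingCoeff_eq_zero]
    rintro rfl
    simp at hdeg
  · rw [← Polynomial.natDegree_map_eq_of_injective hι, hβ]
    exact hdeg
  · intro i j hij
    obtain ⟨y, hy⟩ := hT (s₀ i - s₀ j)⁻¹ (by
      simp only [Finset.mem_union, Finset.mem_image, Finset.mem_univ, true_and]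
      exact Or.inr ⟨(i, j), rfl⟩)
    refine IsUnit.of_mul_eq_one y (hι ?_)
    rw [map_mul, map_sub, hs', hs', hy, map_one, mul_inv_cancel₀]
    intro h
    exact hij (hs₀inj (sub_eq_zero.1 h))
  · apply Polynomial.map_injective ι hι
    rw [Polynomial.map_mul, ← Polynomial.derivative_map, hβ, hV, Polynomial.map_pow,
      Polynomial.map_comp, hP, hβ, eV]
  · apply Polynomial.map_injective ι hι
    have h6 : (f.map (algebraMap M (Localization.Away g))).map ι = F := by
      rw [Polynomial.map_map, hF]
      congr 1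
      ext x
      exact hιa x
    rw [Polynomial.map_mul, h6, hU, Polynomial.map_pow, Polynomial.map_comp, hP, hβ, eU]

end Pool.Agent.W2helper82.BY
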